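import Pool.Agent.EDX.Stmts2

/-! Row CSA of squad EDX. -/

set_option autoImplicit false

namespace Pool.Agent.EDX.H41

open Polynomial Finset Pool.Agent.EDG Pool.Agent.EDX Module

theorem fit_monic (k : ℕ) : (Fit k).Monic ∧ (Fit k).natDegree = 2 ^ k := by
  induction k with
  | zero => exact ⟨monic_X, by rw [Fit, natDegree_X, pow_zero]⟩
  | succ k ih =>
    rw [Fit]
    refine ⟨ih.1.comp F_monic (by rw [F_natDegree]; norm_num), ?_⟩
    rw [natDegree_comp, ih.2, F_natDegree, pow_succ]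

theorem fit_sub_monic (p : ℕ) (hp : 0 < p) : (Fit p - X).Monic := by
  refine (fit_monic p).1.sub_of_left ?_
  rw [degree_X, degree_eq_natDegree (fit_monic p).1.ne_zero, (fit_monic p).2]
  have : 1 < 2 ^ p := Nat.one_lt_two_pow hp.ne'
  exact_mod_cast this

theorem csa (hCAC : CacStmt) (hINT : IntStmt) (hMD2 : Md2Stmt) (hPGN : PgnStmt) (hPRD : PrdStmt)
    (hNDV : NdvStmt) (hCMP : Pool.Agent.EDG.CmpStmt) : CsaStmt := by
  intro n g hg q k k' b d J r₀ m hq hb hd hqn hk' hk hLQ h32 hJ hJq h16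
  obtain ⟨Φ, hΦ, hch, hfin⟩ := hCAC n g hg q k k' b d J r₀ hq hb hd hk' hk hLQ h32 hJ
  obtain ⟨κ, hκ⟩ : ∃ κ, κ = (2 * d) ^ (b + 1) := ⟨_, rfl⟩
  have hκ0 : 0 < κ := by rw [hκ]; positivity
  obtain ⟨D, hD⟩ : ∃ D, D = g.natDegree := ⟨_, rfl⟩
  have hn : 0 < n := hg.npos
  have hD0 : 0 < D := by
    rw [hD]
    rcases Nat.eq_zero_or_pos g.natDegree with h0 | h0
    · exfalso
      have h1 := hg.monic.natDegree_eq_zero.mp h0
      exact hg.irr.not_isUnit (by rw [h1]; exact isUnit_one)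
    · exact h0
  rw [← hκ] at hΦ h32 hJq h16
  have hfin' : n * D ≤ 4 * d * finrank ℚ (LL (mu n g) (Φ J) (2 ^ J * r₀)) := by
    rw [hD]
    exact hfin
  rw [← hD] at hΦ h32 h16
  obtain ⟨Ψ, a, ha, hΨ, hred⟩ := hINT (Φ J) (hΦ J le_rfl).1
  have hCa : IsUnit (C a : KK[X]) := isUnit_C.mpr (isUnit_iff_ne_zero.mpr ha)
  have hdeg : Ψ.natDegree = (Φ J).natDegree := by
    rw [← natDegree_map_eq_of_injective iK_injective Ψ, hΨ, natDegree_C_mul ha]
  have hdvd : Ψ.map iK ∣ Φ J := by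
    rw [hΨ]
    exact (IsUnit.mul_left_dvd hCa).mpr dvd_rfl
  have hdvd' : Φ J ∣ Ψ.map iK := by
    rw [hΨ]
    exact dvd_mul_left _ _
  have hLL : LL (mu n g) (Ψ.map iK) (2 ^ J * r₀) = LL (mu n g) (Φ J) (2 ^ J * r₀) :=
    le_antisymm (LL_mono_dvd _ hdvd _) (LL_mono_dvd _ hdvd' _)
  have hdκ : 1 ≤ d * κ := Nat.mul_pos hd hκ0
  have hr : Ψ.natDegree + D ≤ 2 ^ J * r₀ := by
    have h1 : q * (Ψ.natDegree + D) ≤ q * r₀ := by
      have h2 := (hΦ J le_rfl).2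
      rw [← hdeg] at h2
      have h3 : q * D ≤ n * D := Nat.mul_le_mul_right _ hqn
      have h4 : 1 * (n * D) ≤ d * κ * (n * D) := Nat.mul_le_mul_right _ hdκ
      nlinarith [h2, h3, h4, h32]
    have h2 : Ψ.natDegree + D ≤ r₀ := Nat.le_of_mul_le_mul_left h1 hq
    have h3 : 1 * r₀ ≤ 2 ^ J * r₀ := Nat.mul_le_mul_right _ Nat.one_le_two_pow
    omega
  have hmd := hMD2 n g hg Ψ (2 ^ J * r₀) (by rw [← hD]; exact hr)
  rw [hLL] at hmd
  have hcard : D ≤ 4 * d * (Th g Ψ).card := by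
    have h1 : n * D ≤ n * (4 * d * (Th g Ψ).card) := by
      calc n * D ≤ 4 * d * finrank ℚ (LL (mu n g) (Φ J) (2 ^ J * r₀)) := hfin'
        _ ≤ 4 * d * (n * (Th g Ψ).card) := Nat.mul_le_mul_left _ hmd
        _ = n * (4 * d * (Th g Ψ).card) := by ring
    exact Nat.le_of_mul_le_mul_left h1 hn
  have hlt : (Φ 0).natDegree < (J + 1) * (Th g Ψ).card := by
    by_contra hcon
    push Not at hcon
    have h2 := (hΦ 0 (Nat.zero_le _)).2
    have h3 : 32 * d * d * κ * n * D < (J + 1) * q * D := Nat.mul_lt_mul_of_pos_right hJq hD0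
    have h4 : (J + 1) * q * D ≤ (J + 1) * q * (4 * d * (Th g Ψ).card) :=
      Nat.mul_le_mul_left _ hcard
    have h5 : q * ((J + 1) * (Th g Ψ).card) ≤ q * (Φ 0).natDegree := Nat.mul_le_mul_left _ hcon
    have h6 : 4 * d * (q * ((J + 1) * (Th g Ψ).card)) ≤ 4 * d * (8 * d * κ * (n * D)) :=
      Nat.mul_le_mul_left _ (h5.trans h2)
    have h7 : (J + 1) * q * (4 * d * (Th g Ψ).card) = 4 * d * (q * ((J + 1) * (Th g Ψ).card)) := by
      ring
    have h8 : 4 * d * (8 * d * κ * (n * D)) = 32 * d * d * κ * n * D := by ring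
    omega
  obtain ⟨ψ, θ, m', hirr, hpos, hψΦ, hθ, hvt, hm', hcomp⟩ := hPGN g J Φ Ψ (fun i hi => (hΦ i hi).1)
    hch hred hdvd hlt
  obtain ⟨p, hp, hper, hmin⟩ := hPRD ψ m' hirr hpos hm' hcomp
  have hnp : n ∣ p := hNDV n g hg θ ψ p hθ hvt hper
  refine ⟨p, Nat.le_of_dvd hp hnp, ?_⟩
  have hmon := fit_sub_monic p hp
  obtain ⟨r, hrr⟩ := hper
  have hlc : ψ.leadingCoeff * r.leadingCoeff = 1 := by
    rw [← leadingCoeff_mul, ← hrr]
    exact hmon
  have hu : IsUnit ψ.leadingCoeff := IsUnit.of_mul_eq_one _ hlc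
  obtain ⟨ψ', hψ'⟩ : ∃ ψ', ψ' = C r.leadingCoeff * ψ := ⟨_, rfl⟩
  have hur : IsUnit (C r.leadingCoeff : ℤ[X][X]) :=
    isUnit_C.mpr (IsUnit.of_mul_eq_one ψ.leadingCoeff (by rw [mul_comm]; exact hlc))
  have hass : Associated ψ ψ' := by
    rw [hψ']
    exact (associated_unit_mul_right ψ _ hur)
  have hmonic : ψ'.Monic := by
    rw [hψ', Monic, leadingCoeff_mul, leadingCoeff_C, mul_comm]
    exact hlc
  have hr0 : r.leadingCoeff ≠ 0 := by
    intro h0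
    rw [h0, mul_zero] at hlc
    exact zero_ne_one hlc
  have hdeg' : ψ'.natDegree = ψ.natDegree := by
    rw [hψ', natDegree_C_mul hr0]
  refine hCMP p m ψ' hp (hass.irreducible hirr) hmonic (hass.symm.dvd.trans ⟨r, hrr⟩)
    (fun i hi hip hdv => hmin i hi hip (hass.dvd.trans hdv)) ?_
  rw [hdeg']
  have h1 : ψ.natDegree ≤ (Φ 0).natDegree := by
    rw [← natDegree_map_eq_of_injective iK_injective ψ]
    exact natDegree_le_of_dvd hψΦ (hΦ 0 (Nat.zero_le _)).1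
  have h2 := (hΦ 0 (Nat.zero_le _)).2
  have h3 : q * (2 * ψ.natDegree) ≤ q * 2 ^ m := by
    have h4 : q * ψ.natDegree ≤ q * (Φ 0).natDegree := Nat.mul_le_mul_left _ h1
    nlinarith [h2, h4, h16]
  exact Nat.le_of_mul_le_mul_left h3 hq

end Pool.Agent.EDX.H41
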