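import Pool.Agent.EDX.Stmts2

/-! Row INT of squad EDX. -/

set_option autoImplicit false

namespace Pool.Agent.EDX.H41

open Polynomial Finset Pool.Agent.EDG Pool.Agent.EDX

theorem two_eq : (2 : ℤ[X][X]) = C (C (2 : ℤ)) := by
  rw [map_ofNat, map_ofNat]

theorem red2_zero (p : ℤ[X][X]) (hp : red2 p = 0) : (2 : ℤ[X][X]) ∣ p := by
  rw [two_eq, C_dvd_iff_dvd_coeff]
  intro i
  rw [C_dvd_iff_dvd_coeff]
  intro j
  have h1 : ((red2 p).coeff i).coeff j = 0 := by rw [hp]; simp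
  rw [red2, coe_mapRingHom, coeff_map, coe_mapRingHom, coeff_map, Int.coe_castRingHom] at h1
  exact (ZMod.intCast_zmod_eq_zero_iff_dvd _ 2).mp h1

theorem int : IntStmt := by
  intro Φ hΦ
  obtain ⟨b, hb⟩ := IsLocalization.integerNormalization_map_to_map (nonZeroDivisors ℤ[X]) Φ
  obtain ⟨Ψ₀, hΨ₀⟩ : ∃ Ψ₀, Ψ₀ = IsLocalization.integerNormalization (nonZeroDivisors ℤ[X]) Φ :=
    ⟨_, rfl⟩
  have hb0 : iK (b : ℤ[X]) ≠ 0 := by
    rw [Ne, map_eq_zero_iff _ iK_injective]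
    exact nonZeroDivisors.coe_ne_zero b
  have h1 : Ψ₀.map iK = C (iK (b : ℤ[X])) * Φ := by
    have h2 : Ψ₀.map iK = (b : ℤ[X]) • Φ := by rw [hΨ₀]; exact hb
    rw [h2, ← smul_eq_C_mul, ← algebraMap_smul KK (b : ℤ[X]) Φ]
    rfl
  have hΨ0 : Ψ₀ ≠ 0 := by
    intro h2
    rw [h2, Polynomial.map_zero] at h1
    exact mul_ne_zero (C_ne_zero.mpr hb0) hΦ h1.symm
  have hunit : ¬ IsUnit (2 : ℤ[X][X]) := by
    rw [two_eq, isUnit_C, isUnit_C]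
    decide
  obtain ⟨c, hc, hc2⟩ := (FiniteMultiplicity.of_not_isUnit hunit hΨ0).exists_eq_pow_mul_and_not_dvd
  obtain ⟨k, hk⟩ : ∃ k, k = multiplicity (2 : ℤ[X][X]) Ψ₀ := ⟨_, rfl⟩
  rw [← hk] at hc
  have h20 : (iK 2) ^ k ≠ 0 := by
    refine pow_ne_zero _ ?_
    rw [Ne, map_eq_zero_iff _ iK_injective]
    exact two_ne_zero
  refine ⟨c, ((iK 2) ^ k)⁻¹ * iK (b : ℤ[X]), mul_ne_zero (inv_ne_zero h20) hb0, ?_, ?_⟩
  · have h3 : C ((iK 2) ^ k) * c.map iK = C (iK (b : ℤ[X])) * Φ := by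
      rw [← h1]
      conv_rhs => rw [hc]
      rw [Polynomial.map_mul, Polynomial.map_pow, Polynomial.map_ofNat, C_pow, map_ofNat, map_ofNat]
    rw [C_mul, mul_assoc, ← h3, ← mul_assoc, ← C_mul, inv_mul_cancel₀ h20, C_1, one_mul]
  · intro h4
    exact hc2 (red2_zero c h4)

end Pool.Agent.EDX.H41
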